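import Pool.Agent.Helper20_TWS.Stmts
import Pool.Agent.Helper58_TOR.Rel

/-! DET: detach pieces glued on to a complex. -/

set_option autoImplicit false

namespace Pool.Agent.TWS.H94

open Pool.Agent.TOR Pool.Agent.TOR.H58 Pool.Agent.TWS Finsupp

theorem det_aux {V M G : Type} [AddCommGroup M] {K K' : Set V → Prop}
    {S : G → Set V → Prop} {p : ℕ} (hK : Dn K) (hK' : Dn K') (hS : ∀ g, Dn (S g))
    (hKK : ∀ s, K s → K' s) (hex : ∀ s, K' s → ¬ K s → ∃ g, S g s)
    (hun : ∀ s s' g g', s ⊆ s' → K' s' → ¬ K s → S g s → S g' s' → g = g')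
    (hE : ∀ g, Ex M (fun s => K s ∧ S g s) p) :
    ∀ (n : ℕ) (c : List V →₀ M) (A : Finset (List V)), A.card = n →
      (∀ l, c l ≠ 0 → ¬ KL K l → l ∈ A) →
      c ∈ Sup M (fun l => KL K' l ∧ l.length = p + 1) → bd c ∈ Sup M (KL K) →
      ∃ b ∈ Sup M (fun l => KL K l ∧ l.length = p + 1), bd b = bd c := by
  classical
  intro n
  induction n using Nat.strong_induction_on with
  | _ n ih =>
    intro c A hA hcA hc hbc
    by_cases hall : ∀ l, c l ≠ 0 → KL K l
    · exact ⟨c, fun l hl => ⟨hall l hl, (hc l hl).2⟩, rfl⟩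
    push Not at hall
    obtain ⟨l0, hl0, hl0K⟩ := hall
    obtain ⟨g, hg⟩ := hex _ (hc l0 hl0).1 hl0K
    obtain ⟨d, hd1, hd2⟩ := filter_mem hc (fun l => ¬ KL K l ∧ S g {a | a ∈ l})
    -- the boundary of `d` lies in `K`
    have hsub : ∀ l l' : List V, (∀ a ∈ l', a ∈ l) → ({a | a ∈ l'} : Set V) ⊆ {a | a ∈ l} :=
      fun l l' h a ha => h a ha
    have hbd1 : bd d ∈ Sup M (fun l => (KL K' l ∧ S g {a | a ∈ l}) ∧ l.length = p) := by
      refine bd_mem_Sup ?_ hd1
      intro l hl l' hl' hlen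
      refine ⟨⟨hK' _ _ (hsub _ _ hl') hl.1.1, hS g _ _ (hsub _ _ hl') hl.2.2⟩, ?_⟩
      have := hl.1.2
      omega
    have hbd2 : bd (c - d) ∈ Sup M (fun l => KL K l ∨ ¬ S g {a | a ∈ l}) := by
      refine bd_mem_Sup ?_ hd2
      intro l hl l' hl' _
      by_contra hcon
      push Not at hcon
      obtain ⟨h1, h2⟩ := hcon
      have h3 : ¬ KL K l := fun h => h1 (hK _ _ (hsub _ _ hl') h)
      have h4 : ¬ S g {a | a ∈ l} := fun h => hl.2 ⟨h3, h⟩
      obtain ⟨g', hg'⟩ := hex _ hl.1.1 h3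
      have h5 := hun _ _ g g' (hsub _ _ hl') hl.1.1 h1 h2 hg'
      rw [← h5] at hg'
      exact h4 hg'
    have hbdK : bd d ∈ Sup M (KL K) := by
      intro l hl
      by_contra h
      have h1 := (hbd1 l hl).1.2
      have h2 : bd (c - d) l = 0 := by
        by_contra h2
        rcases hbd2 l h2 with h3 | h3
        · exact h h3
        · exact h3 h1
      have h3 : bd c l = 0 := by
        by_contra h3
        exact h (hbc l h3)
      apply hl
      have h4 : bd d = bd c - bd (c - d) := by rw [map_sub]; abel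
      rw [h4, Finsupp.sub_apply, h3, h2, sub_zero]
    have hZ : bd d ∈ Zc M (fun s => K s ∧ S g s) p := by
      refine ⟨fun l hl => ⟨⟨hbdK l hl, (hbd1 l hl).1.2⟩, (hbd1 l hl).2⟩, ?_⟩
      exact bd_bd d
    obtain ⟨b, hb, hbb⟩ := hE g hZ
    have hb' : b ∈ Sup M (fun l => KL K l ∧ l.length = p + 1) := by
      have hb2 : b ∈ Sup M (fun l => KL (fun s => K s ∧ S g s) l ∧ l.length = p + 1) := hb
      exact Sup_mono (fun l hl => ⟨hl.1.1, hl.2⟩) hb2
    -- the new chain
    have hc' : c - d + b ∈ Sup M (fun l => KL K' l ∧ l.length = p + 1) := by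
      refine AddSubgroup.add_mem _ (Sup_mono (fun l hl => hl.1) hd2) ?_
      exact Sup_mono (fun l hl => ⟨hKK _ hl.1, hl.2⟩) hb'
    have hbc' : bd (c - d + b) = bd c := by
      rw [map_add, map_sub, hbb]
      abel
    have hl0A : l0 ∈ A := hcA l0 hl0 hl0K
    have hnew : ∀ l, (c - d + b) l ≠ 0 → ¬ KL K l → l ∈ A.erase l0 := by
      intro l hl hlK
      have h1 : b l = 0 := by
        by_contra h1
        exact hlK (hb' l h1).1
      rw [Finsupp.add_apply, h1, add_zero] at hl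
      have h2 := hd2 l hl
      have h3 : ¬ S g {a | a ∈ l} := fun h => h2.2 ⟨hlK, h⟩
      have h4 : d l = 0 := by
        by_contra h4
        exact h3 (hd1 l h4).2.2
      rw [Finsupp.sub_apply, h4, sub_zero] at hl
      refine Finset.mem_erase.2 ⟨fun h => ?_, hcA l hl hlK⟩
      rw [h] at h3
      exact h3 hg
    obtain ⟨b', hb1, hb2⟩ := ih (A.erase l0).card
      (by rw [← hA]; exact Finset.card_erase_lt_of_mem hl0A) (c - d + b) (A.erase l0) rfl hnew hc'
      (by rw [hbc']; exact hbc)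
    exact ⟨b', hb1, by rw [hb2, hbc']⟩

/-- DET -/
theorem det : DetS := by
  classical
  intro V M G _ K K' S p hK hK' hS hKK hex hun hE hE' z hz
  have hz' : z ∈ Zc M K' p := ⟨Sup_mono (fun l hl => ⟨hKK _ hl.1, hl.2⟩) hz.1, hz.2⟩
  obtain ⟨c, hc, hcz⟩ := hE' hz'
  obtain ⟨b, hb, hbc⟩ := det_aux hK hK' hS hKK hex hun hE _ c c.support rfl
    (fun l hl _ => Finsupp.mem_support_iff.2 hl) hc
    (by rw [hcz]; exact Sup_mono (fun l hl => hl.1) hz.1)
  exact ⟨b, hb, by rw [hbc, hcz]⟩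

end Pool.Agent.TWS.H94
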